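import Pool.Agent.Helper86.TK.Defs

open Set Filter Topology

namespace Pool.Agent.Helper86.TK

noncomputable section

variable {Γ : Type} {r : Γ → ℕ → Bool} {η : Γ → ℝ}

/-- a continuous linear functional is continuous on the weak space -/
theorem coarse_cont {Y : Type} [NormedAddCommGroup Y] [NormedSpace ℝ Y] (φ : Y →L[ℝ] ℝ) :
    Continuous (fun q : WeakSpace ℝ Y => φ ((toWeakSpace ℝ Y).symm q)) :=
  WeakBilin.eval_continuous ((topDualPairing ℝ Y).flip) φ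

/-- continuous images of weakly compact sets -/
theorem coarse_img {Y : Type} [NormedAddCommGroup Y] [NormedSpace ℝ Y] {Z : Type}
    [TopologicalSpace Z] (K : Set Y) (hK : WCpt K) (F : Y → Z)
    (hF : Continuous (fun q : WeakSpace ℝ Y => F ((toWeakSpace ℝ Y).symm q))) :
    IsCompact (F '' K) := by
  have h := hK.image hF
  have e : (fun q : WeakSpace ℝ Y => F ((toWeakSpace ℝ Y).symm q)) '' (toWeakSpace ℝ Y '' K)
      = F '' K := by
    rw [image_image]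
    simp only [LinearEquiv.symm_apply_apply]
  rw [e] at h
  exact h

/-- scaling -/
theorem coarse_smul {Y : Type} [NormedAddCommGroup Y] [NormedSpace ℝ Y] (K : Set Y)
    (hK : WCpt K) (c : ℝ) : WCpt ((fun y => c • y) '' K) := by
  have h : IsCompact ((fun q : WeakSpace ℝ Y => c • q) '' (toWeakSpace ℝ Y '' K)) :=
    hK.image (continuous_const_smul c)
  have e : (fun q : WeakSpace ℝ Y => c • q) '' (toWeakSpace ℝ Y '' K)
      = toWeakSpace ℝ Y '' ((fun y => c • y) '' K) := by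
    rw [image_image, image_image]
    simp only [map_smul]
  rw [e] at h
  exact h

/-- the coordinate on the first factor -/
def coarseA (r : Γ → ℕ → Bool) (η : Γ → ℝ) (x : Γ) : XX r η →L[ℝ] ℝ :=
  LinearMap.mkContinuous
    { toFun := fun p => p.1.1 x
      map_add' := fun p q => rfl
      map_smul' := fun c p => rfl } 1 (by
      intro p
      rw [one_mul]
      have h1 : ‖(p.1.1 : Γ → ℝ) x‖ ≤ ‖p.1.1‖ := lp.norm_apply_le_norm (by norm_num) p.1.1 x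
      have h2 : ‖p.1.1‖ ≤ ‖p.1‖ := norm_fst_le p.1
      exact h1.trans h2)

def coarseB (r : Γ → ℕ → Bool) (η : Γ → ℝ) (t : T) : XX r η →L[ℝ] ℝ :=
  LinearMap.mkContinuous
    { toFun := fun p => p.1.2 t
      map_add' := fun p q => rfl
      map_smul' := fun c p => rfl } 1 (by
      intro p
      rw [one_mul]
      have h1 : ‖(p.1.2 : T → ℝ) t‖ ≤ ‖p.1.2‖ := lp.norm_apply_le_norm (by norm_num) p.1.2 t
      have h2 : ‖p.1.2‖ ≤ ‖p.1‖ := norm_snd_le p.1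
      exact h1.trans h2)

theorem coarse_absA (p : XX r η) (x : Γ) : |p.1.1 x| ≤ ‖p‖ := by
  have h1 : ‖(p.1.1 : Γ → ℝ) x‖ ≤ ‖p.1.1‖ := lp.norm_apply_le_norm (by norm_num) p.1.1 x
  have h2 : ‖p.1.1‖ ≤ ‖p.1‖ := norm_fst_le p.1
  exact h1.trans h2

theorem coarse_absB (p : XX r η) (t : T) : |p.1.2 t| ≤ ‖p‖ := by
  have h1 : ‖(p.1.2 : T → ℝ) t‖ ≤ ‖p.1.2‖ := lp.norm_apply_le_norm (by norm_num) p.1.2 t
  have h2 : ‖p.1.2‖ ≤ ‖p.1‖ := norm_snd_le p.1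
  exact h1.trans h2

/-- weak continuity of the S-terms -/
theorem coarse_S (hSV : ST_SVAL) (G : Set Γ) (f : Γ → ℕ) (hf : Sep r G f) (t : T) :
    Continuous (fun q : WeakSpace ℝ (XX r η) =>
      S r η G f ((toWeakSpace ℝ (XX r η)).symm q).1.1 t) := by
  rcases hSV Γ r η G f hf t with ⟨x, _, _, h⟩ | ⟨_, h⟩
  · have e : (fun q : WeakSpace ℝ (XX r η) =>
      S r η G f ((toWeakSpace ℝ (XX r η)).symm q).1.1 t)
      = fun q => coarseA r η x ((toWeakSpace ℝ (XX r η)).symm q) * η x := by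
      funext q
      rw [h]
      rfl
    rw [e]
    exact (coarse_cont (coarseA r η x)).mul continuous_const
  · have e : (fun q : WeakSpace ℝ (XX r η) =>
      S r η G f ((toWeakSpace ℝ (XX r η)).symm q).1.1 t) = fun q => 0 := by
      funext q
      rw [h]
    rw [e]
    exact continuous_const

/-- a bound for the S-terms -/
theorem coarse_Sb (hSV : ST_SVAL) (G : Set Γ) (f : Γ → ℕ) (hf : Sep r G f) (a : Γ → ℝ)
    (θ : ℝ) (hθ : 0 ≤ θ) (ha : ∀ x ∈ G, |a x * η x| ≤ θ) (t : T) :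
    |S r η G f a t| ≤ θ := by
  rcases hSV Γ r η G f hf t with ⟨x, hx, _, h⟩ | ⟨_, h⟩
  · rw [h]; exact ha x hx
  · rw [h, abs_zero]; exact hθ

theorem st_COARSE (hSUPP : ST_SUPP) (hSEP : ST_SEP) (hSVAL : ST_SVAL) (hC0 : ST_C0)
    (hINX : ST_INX) (hWK : ST_WK) (hPAT : ST_PAT) : ST_COARSE := by
  intro Γ r η hP θ hθ0 hθ1 G₀ hG₀ J hJ K hK hK1 hKθ
  obtain ⟨hinj, hη⟩ := hP
  have hP : Par r η := ⟨hinj, hη⟩
  -- supports
  choose G hGc hGs using fun j => hSUPP Γ r η hP (K j) (hK j)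
  obtain ⟨f, hf⟩ := hSEP Γ r hinj G₀ hG₀
  choose g hg using fun j => hSEP Γ r hinj (G j \ G₀) ((hGc j).mono sdiff_subset)
  -- bound of one term
  have hb1 : ∀ (p : XX r η), ‖p‖ ≤ 1 → ∀ x, |p.1.1 x * η x| ≤ 1 := by
    intro p hp x
    rw [abs_mul, abs_of_pos (hη x).1]
    have h1 := coarse_absA p x
    have h2 : |p.1.1 x| ≤ 1 := h1.trans hp
    have h3 := (hη x).2
    have h4 := (hη x).1
    nlinarith [abs_nonneg (p.1.1 x)]
  have hbθ : ∀ j, ∀ p ∈ K j, ∀ x, x ∉ G₀ → |p.1.1 x * η x| ≤ θ := by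
    intro j p hp x hx
    by_cases h0 : p.1.1 x = 0
    · rw [h0, zero_mul, abs_zero]; exact hθ0.le
    · rw [abs_mul, abs_of_pos (hη x).1]
      have h1 : |p.1.1 x| ≤ 1 := (coarse_absA p x).trans (hK1 j p hp)
      have h2 := hKθ j p hp x hx h0
      have h4 := (hη x).1
      nlinarith [abs_nonneg (p.1.1 x)]
  -- the coordinate maps
  let Φ : J → XX r η → T → ℝ := fun j p t =>
    p.1.2 t - SS r η G₀ (G j \ G₀) f (g j) p.1.1 t
  let C : J → Set (T → ℝ) := fun j => Φ j '' K j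
  have hCc : ∀ j, IsCompact (C j) := by
    intro j
    apply coarse_img (K j) (hK j) (Φ j)
    refine continuous_pi fun t => ?_
    have e1 := coarse_cont (coarseB r η t)
    have e2 := coarse_S (η := η) hSVAL G₀ f hf t
    have e3 := coarse_S (η := η) hSVAL (G j \ G₀) (g j) (hg j) t
    exact e1.sub (e2.add e3)
  have hC3 : ∀ j, ∀ c ∈ C j, ∀ t, |c t| ≤ 3 := by
    rintro j _ ⟨p, hp, rfl⟩ t
    have hp1 := hK1 j p hp
    have e1 : |p.1.2 t| ≤ 1 := (coarse_absB p t).trans hp1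
    have e2 := coarse_Sb hSVAL G₀ f hf p.1.1 1 zero_le_one (fun x _ => hb1 p hp1 x) t
    have e3 := coarse_Sb hSVAL (G j \ G₀) (g j) (hg j) p.1.1 1 zero_le_one
      (fun x _ => hb1 p hp1 x) t
    change |p.1.2 t - (S r η G₀ f p.1.1 t + S r η (G j \ G₀) (g j) p.1.1 t)| ≤ 3
    rw [abs_le] at *
    constructor <;> linarith [e1.1, e1.2, e2.1, e2.2, e3.1, e3.2]
  have hC0' : ∀ j, ∀ c ∈ C j, Null c := by
    rintro j _ ⟨p, hp, rfl⟩
    refine hC0 Γ r η hP G₀ (G j \ G₀) f (g j) disjoint_sdiff_right hf (hg j) p.1 p.2 ?_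
    intro x hx
    apply hGs j p hp x
    intro hxG
    apply hx
    by_cases h : x ∈ G₀
    · exact Or.inl h
    · exact Or.inr ⟨hxG, h⟩
  obtain ⟨s, j₀, hs, hcomp⟩ := hPAT J C hJ hCc hC3
  refine ⟨s, hs, ?_⟩
  -- the union of the supports
  let G₁ : Set Γ := (G j₀ ∪ ⋃ n, G (s n)) \ G₀
  have hG₁ : G₁.Countable :=
    ((hGc j₀).union (countable_iUnion fun n => hGc (s n))).mono sdiff_subset
  obtain ⟨g', hg'⟩ := hSEP Γ r hinj G₁ hG₁
  let CC : Set (T → ℝ) := C j₀ ∪ ⋃ n, C (s n)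
  have hCC0 : ∀ c ∈ CC, Null c := by
    rintro c (hc | hc)
    · exact hC0' j₀ c hc
    · obtain ⟨n, hn⟩ := mem_iUnion.1 hc
      exact hC0' _ c hn
  have hCC3 : ∀ c ∈ CC, ∀ t, |c t| ≤ 3 := by
    rintro c (hc | hc)
    · exact hC3 j₀ c hc
    · obtain ⟨n, hn⟩ := mem_iUnion.1 hc
      exact hC3 _ c hn
  have hQ := hWK Γ r η hP G₀ G₁ f g' disjoint_sdiff_right hf hg' CC hcomp hCC0 hCC3
    (1 + 2 * θ) (by linarith)
  have hR : (0 : ℝ) < 1 + 2 * θ := by linarith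
  refine ⟨_, coarse_smul _ hQ (1 + 2 * θ)⁻¹, ?_, ?_⟩
  · rintro _ ⟨q, ⟨_, _, hq, _⟩, rfl⟩
    change ‖(1 + 2 * θ)⁻¹ • q‖ ≤ 1
    rw [norm_smul, Real.norm_eq_abs, abs_of_pos (inv_pos.2 hR), inv_mul_le_iff₀ hR, mul_one]
    exact hq
  intro n p hp
  have hp1 := hK1 _ p hp
  -- the new vector
  let c : T → ℝ := Φ (s n) p
  have hcC : c ∈ C (s n) := ⟨p, hp, rfl⟩
  have hcCC : c ∈ CC := Or.inr (mem_iUnion.2 ⟨n, hcC⟩)
  let b' : T → ℝ := fun t => SS r η G₀ G₁ f g' p.1.1 t + c t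
  have hdiff : ∀ t, |b' t - p.1.2 t| ≤ 2 * θ := by
    intro t
    have e2 := coarse_Sb hSVAL G₁ g' hg' p.1.1 θ hθ0.le
      (fun x hx => hbθ (s n) p hp x hx.2) t
    have e3 := coarse_Sb hSVAL (G (s n) \ G₀) (g (s n)) (hg (s n)) p.1.1 θ hθ0.le
      (fun x hx => hbθ (s n) p hp x hx.2) t
    have e : b' t - p.1.2 t = S r η G₁ g' p.1.1 t - S r η (G (s n) \ G₀) (g (s n)) p.1.1 t := by
      change (S r η G₀ f p.1.1 t + S r η G₁ g' p.1.1 t) + (p.1.2 t -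
        (S r η G₀ f p.1.1 t + S r η (G (s n) \ G₀) (g (s n)) p.1.1 t)) - p.1.2 t = _
      ring
    rw [e, abs_le]
    rw [abs_le] at e2 e3
    constructor <;> linarith [e2.1, e2.2, e3.1, e3.2]
  have hb'mem : Memℓp b' ⊤ := by
    refine memℓp_infty ⟨1 + 2 * θ, ?_⟩
    rintro _ ⟨t, rfl⟩
    change |b' t| ≤ _
    have h1 := hdiff t
    have h2 : |p.1.2 t| ≤ 1 := (coarse_absB p t).trans hp1
    rw [abs_le] at *
    constructor <;> linarith [h1.1, h1.2, h2.1, h2.2]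
  let bE : Ei := ⟨b', hb'mem⟩
  have hsupp : ∀ x, x ∉ G₀ ∪ G₁ → p.1.1 x = 0 := by
    intro x hx
    apply hGs (s n) p hp x
    intro hxG
    apply hx
    by_cases h : x ∈ G₀
    · exact Or.inl h
    · exact Or.inr ⟨Or.inr (mem_iUnion.2 ⟨n, hxG⟩), h⟩
  have hceq : (fun t => bE t - SS r η G₀ G₁ f g' p.1.1 t) = c := by
    funext t
    change SS r η G₀ G₁ f g' p.1.1 t + c t - SS r η G₀ G₁ f g' p.1.1 t = c t
    ring
  have hmem : ((p.1.1, bE) : Amb Γ) ∈ XX r η := by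
    refine hINX Γ r η hP G₀ G₁ f g' disjoint_sdiff_right hf hg' p.1.1 bE hsupp ?_
    rw [hceq]
    exact hCC0 c hcCC
  let q : XX r η := ⟨(p.1.1, bE), hmem⟩
  have hpq : ‖p - q‖ ≤ 2 * θ := by
    change ‖(p.1 - ((p.1.1, bE) : Amb Γ))‖ ≤ 2 * θ
    refine norm_prod_le_iff.2 ⟨?_, ?_⟩
    · change ‖p.1.1 - p.1.1‖ ≤ 2 * θ
      rw [sub_self, norm_zero]
      linarith
    · refine lp.norm_le_of_forall_le (by linarith) fun t => ?_
      change |p.1.2 t - b' t| ≤ 2 * θ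
      rw [abs_sub_comm]
      exact hdiff t
  have hqR : ‖q‖ ≤ 1 + 2 * θ := by
    have h1 : q = p - (p - q) := by abel
    rw [h1]
    exact (norm_sub_le _ _).trans (add_le_add hp1 hpq)
  have hqQ : q ∈ {q : XX r η | (∀ x, x ∉ G₀ ∪ G₁ → q.1.1 x = 0) ∧ ‖q.1.1‖ ≤ 1 ∧
      ‖q‖ ≤ 1 + 2 * θ ∧ (fun t => q.1.2 t - SS r η G₀ G₁ f g' q.1.1 t) ∈ CC} := by
    refine ⟨hsupp, (norm_fst_le p.1).trans hp1, hqR, ?_⟩
    change (fun t => bE t - SS r η G₀ G₁ f g' p.1.1 t) ∈ CC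
    rw [hceq]
    exact hcCC
  refine ⟨(1 + 2 * θ)⁻¹ • q, ⟨q, hqQ, rfl⟩, ?_⟩
  have h1 : p - (1 + 2 * θ)⁻¹ • q = (p - q) + (1 - (1 + 2 * θ)⁻¹) • q := by
    module
  rw [h1]
  refine (norm_add_le _ _).trans ?_
  have h2 : ‖(1 - (1 + 2 * θ)⁻¹) • q‖ ≤ 2 * θ := by
    have h3 : (1 : ℝ) - (1 + 2 * θ)⁻¹ = 2 * θ / (1 + 2 * θ) := by
      field_simp
      ring
    rw [norm_smul, h3, Real.norm_eq_abs, abs_of_nonneg (by positivity), div_mul_eq_mul_div,
      div_le_iff₀ hR]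
    exact mul_le_mul_of_nonneg_left hqR (by linarith)
  linarith

end

end Pool.Agent.Helper86.TK
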